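import Mathlib
import Pool.Agent.MP_5a8dcb_an.Assemble

set_option autoImplicit false

namespace Pool.Agent.Results.MP_5a8dcb_an.SweepingOutLog

open MeasureTheory Filter Pool.Agent.MP_5a8dcb_an

/-- Every sequence of positive integers with `a (n+1) / a n ≥ 1 + c / log n` for all large `n`
(some fixed `c > 0`) is strong sweeping out. -/
theorem result (a : ℕ → ℕ) (hpos : ∀ n, 0 < a n) (c : ℝ) (hc : 0 < c)
    (hgrow : ∀ᶠ n : ℕ in atTop, 1 + c / Real.log n ≤ (a (n + 1) : ℝ) / (a n : ℝ))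
    (X : Type*) [MeasurableSpace X] [MeasurableSpace.CountablySeparated X]
    (μ : Measure X) [IsProbabilityMeasure μ] (T : X → X) (hT : MeasurePreserving T μ μ)
    (haper : ∀ k : ℕ, 1 ≤ k → μ {x | T^[k] x = x} = 0) (ε : ℝ) (hε : 0 < ε) :
    ∃ E : Set X, MeasurableSet E ∧ μ E < ENNReal.ofReal ε ∧ ∀ᵐ x ∂μ,
      limsup (fun N : ℕ => 1 / (N : ℝ) *
        ∑ n ∈ Finset.Icc 1 N, E.indicator (fun _ => (1 : ℝ)) (T^[a n] x)) atTop = 1 ∧
      liminf (fun N : ℕ => 1 / (N : ℝ) *
        ∑ n ∈ Finset.Icc 1 N, E.indicator (fun _ => (1 : ℝ)) (T^[a n] x)) atTop = 0 := by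
  obtain ⟨E, hEm, hEμ, hae⟩ := oscillation a hpos c hc hgrow hT haper ε hε
  refine ⟨E, hEm, hEμ, ?_⟩
  filter_upwards [hae] with x hx
  simp only [sum_indicator_eq_visits]
  set u : ℕ → ℝ := fun N => 1 / (N : ℝ) * visits a T E x N with hu
  have h0 : ∀ N, 0 ≤ u N := fun N => by positivity
  have h1 : ∀ N, u N ≤ 1 := by
    intro N
    have h2 : (visits a T E x N : ℝ) ≤ N := by exact_mod_cast visits_le a T E x N
    simp only [hu]
    rw [one_div, ← div_eq_inv_mul]
    exact div_le_one_of_le₀ h2 (by positivity)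
  have hb1 : IsBoundedUnder (· ≤ ·) atTop u := isBoundedUnder_of ⟨1, h1⟩
  have hb0 : IsBoundedUnder (· ≥ ·) atTop u := isBoundedUnder_of ⟨0, h0⟩
  constructor
  · apply le_antisymm (limsup_le_of_le hb0.isCoboundedUnder_le (Eventually.of_forall h1))
    refine le_of_forall_pos_le_add fun η hη => ?_
    rw [← sub_le_iff_le_add]
    refine le_limsup_of_frequently_le (frequently_atTop.2 fun j => ?_) hb1
    obtain ⟨j', hj'⟩ := exists_nat_ge (3 / η)
    obtain ⟨⟨i, N, h2, h3, h4⟩, _⟩ := hx (j + j')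
    refine ⟨N, by omega, ?_⟩
    have hN : (0 : ℝ) < N := by
      have : 0 < N := by omega
      exact_mod_cast this
    have h5 : ((i : ℝ) + 1) * N ≤ (i + 4) * visits a T E x N := by exact_mod_cast h4
    have h6 : (j' : ℝ) ≤ i := by
      have : j' ≤ i := by omega
      exact_mod_cast this
    rw [div_le_iff₀ hη] at hj'
    simp only [hu]
    rw [one_div, ← div_eq_inv_mul, le_div_iff₀ hN]
    have h7 : (0 : ℝ) < i + 4 := by positivity
    refine le_of_mul_le_mul_left (le_trans ?_ h5) h7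
    rw [← mul_assoc]
    refine mul_le_mul_of_nonneg_right ?_ hN.le
    nlinarith
  · apply le_antisymm _ (le_liminf_of_le hb1.isCoboundedUnder_ge (Eventually.of_forall h0))
    refine le_of_forall_pos_le_add fun η hη => ?_
    rw [zero_add]
    refine liminf_le_of_frequently_le (frequently_atTop.2 fun j => ?_) hb0
    obtain ⟨j', hj'⟩ := exists_nat_ge (3 / η)
    obtain ⟨_, ⟨i, N, h2, h3, h4⟩⟩ := hx (j + j')
    refine ⟨N, by omega, ?_⟩
    have hN : (0 : ℝ) < N := by
      have : 0 < N := by omega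
      exact_mod_cast this
    have h5 : ((i : ℝ) + 4) * visits a T E x N ≤ 3 * N := by exact_mod_cast h4
    have h6 : (j' : ℝ) ≤ i := by
      have : j' ≤ i := by omega
      exact_mod_cast this
    rw [div_le_iff₀ hη] at hj'
    simp only [hu]
    rw [one_div, ← div_eq_inv_mul, div_le_iff₀ hN]
    have h7 : (0 : ℝ) < i + 4 := by positivity
    refine le_of_mul_le_mul_left (le_trans h5 ?_) h7
    rw [← mul_assoc]
    refine mul_le_mul_of_nonneg_right ?_ hN.le
    nlinarith

end Pool.Agent.Results.MP_5a8dcb_an.SweepingOutLog
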